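import Pool.Agent.Helper69.BQ.St.B2

/-!
# Project BQ, piece C2: an element of norm a square is, up to a rational factor, a product of
elements of the three quadratic subfields
-/

namespace Pool.Agent.Helper75.BQ

open Module NumberField Pool.Agent.Helper25.Biq Pool.Agent.Helper69.BQ

variable {K : Type} [Field K] [NumberField K] [IsGalois ℚ K] {g12 g13 g23 : ℤ}

private lemma split_aux (D : Dat K g12 g13 g23) (hA : Arith g12 g13 g23) {A : K} (hA0 : A ≠ 0)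
    {n : ℚ} (hn : n ≠ 0) {c1 c2 c3 : ℚ} {γ1 γ2 γ3 : K} (hc1 : c1 ≠ 0) (hc2 : c2 ≠ 0) (hc3 : c3 ≠ 0)
    (h1 : γ1 ≠ 0) (h2 : γ2 ≠ 0) (h3 : γ3 ≠ 0)
    (f1 : D.σ γ1 = γ1) (f2 : D.τ γ2 = γ2) (f3 : D.ρ γ3 = γ3)
    (b1 : A * D.σ A = algebraMap ℚ K c1 * γ1 ^ 2) (b2 : A * D.τ A = algebraMap ℚ K c2 * γ2 ^ 2)
    (b3 : A * D.ρ A = algebraMap ℚ K c3 * γ3 ^ 2) {e : ℚ}
    (he : A * algebraMap ℚ K n = algebraMap ℚ K e * (γ1 * γ2 * γ3)) :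
    ∃ (c1 c2 c3 : ℚ) (γ1 γ2 γ3 : K) (g1 g2 g3 : ℚ), c1 ≠ 0 ∧ c2 ≠ 0 ∧ c3 ≠ 0 ∧
      γ1 ≠ 0 ∧ γ2 ≠ 0 ∧ γ3 ≠ 0 ∧ g1 ≠ 0 ∧ g2 ≠ 0 ∧ g3 ≠ 0 ∧
      D.σ γ1 = γ1 ∧ D.τ γ2 = γ2 ∧ D.ρ γ3 = γ3 ∧
      A * D.σ A = algebraMap ℚ K c1 * γ1 ^ 2 ∧ A * D.τ A = algebraMap ℚ K c2 * γ2 ^ 2 ∧
      A * D.ρ A = algebraMap ℚ K c3 * γ3 ^ 2 ∧
      IsNm (g12 * g13) g1 ∧ IsNm (g12 * g23) g2 ∧ IsNm (g13 * g23) g3 ∧
      (∃ e : ℚ, c1 * c2 * c3 = e ^ 2) ∧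
      (∃ q : ℚ, q ≠ 0 ∧ c1 = g2 * g3 * q ^ 2) ∧ (∃ q : ℚ, q ≠ 0 ∧ c2 = g1 * g3 * q ^ 2) ∧
      ∃ q : ℚ, q ≠ 0 ∧ c3 = g1 * g2 * q ^ 2 := by
  have hinj : Function.Injective (algebraMap ℚ K) := (algebraMap ℚ K).injective
  have hj0 : ∀ {q : ℚ}, q ≠ 0 → algebraMap ℚ K q ≠ 0 := fun h =>
    (map_ne_zero (algebraMap ℚ K)).2 h
  obtain ⟨g1, hg1, n1⟩ := norm_isNm D hA f1
  obtain ⟨g2, hg2, n2⟩ := norm_isNm D.rot hA.rot f2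
  obtain ⟨g3, hg3, n3⟩ := norm_isNm D.rot.rot hA.rot.rot f3
  change γ2 * D.ρ γ2 = _ at hg2
  change γ3 * D.σ γ3 = _ at hg3
  -- the other conjugates
  have e2 : D.σ γ2 = D.ρ γ2 := by
    conv_lhs => rw [← f2]
    exact D.v4.hst γ2
  have e3 : D.τ γ3 = D.σ γ3 := by
    conv_lhs => rw [← f3]
    exact D.v4.rot.hst γ3
  have e1 : D.ρ γ1 = D.τ γ1 := by
    conv_lhs => rw [← f1]
    exact D.v4.hrs γ1
  have hg10 : g1 ≠ 0 := by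
    rintro rfl
    rw [map_zero] at hg1
    rcases mul_eq_zero.1 hg1 with h | h
    · exact h1 h
    · exact h1 ((map_eq_zero_iff D.τ D.τ.injective).1 h)
  have hg20 : g2 ≠ 0 := by
    rintro rfl
    rw [map_zero] at hg2
    rcases mul_eq_zero.1 hg2 with h | h
    · exact h2 h
    · exact h2 ((map_eq_zero_iff D.ρ D.ρ.injective).1 h)
  have hg30 : g3 ≠ 0 := by
    rintro rfl
    rw [map_zero] at hg3
    rcases mul_eq_zero.1 hg3 with h | h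
    · exact h3 h
    · exact h3 ((map_eq_zero_iff D.σ D.σ.injective).1 h)
  set r : ℚ := e / n with hr
  have hAr : A = algebraMap ℚ K r * (γ1 * γ2 * γ3) := by
    have h5 : algebraMap ℚ K n ≠ 0 := hj0 hn
    rw [hr, map_div₀]
    field_simp
    linear_combination he
  have hr0 : r ≠ 0 := by
    intro h
    rw [h, map_zero, zero_mul] at hAr
    exact hA0 hAr
  have hσA : D.σ A = algebraMap ℚ K r * (γ1 * D.ρ γ2 * D.σ γ3) := by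
    rw [hAr, map_mul, map_mul, map_mul, AlgEquiv.commutes, f1, e2]
  have hτA : D.τ A = algebraMap ℚ K r * (D.τ γ1 * γ2 * D.σ γ3) := by
    rw [hAr, map_mul, map_mul, map_mul, AlgEquiv.commutes, f2, e3]
  have hρA : D.ρ A = algebraMap ℚ K r * (D.τ γ1 * D.ρ γ2 * γ3) := by
    rw [hAr, map_mul, map_mul, map_mul, AlgEquiv.commutes, f3, e1]
  have k1 : c1 = g2 * g3 * r ^ 2 := by
    apply hinj
    have h5 : γ1 ^ 2 ≠ 0 := pow_ne_zero 2 h1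
    apply mul_right_cancel₀ h5
    rw [← b1, hσA, map_mul, map_mul, map_pow, ← hg2, ← hg3]
    nth_rw 1 [hAr]
    ring
  have k2 : c2 = g1 * g3 * r ^ 2 := by
    apply hinj
    have h5 : γ2 ^ 2 ≠ 0 := pow_ne_zero 2 h2
    apply mul_right_cancel₀ h5
    rw [← b2, hτA, map_mul, map_mul, map_pow, ← hg1, ← hg3]
    nth_rw 1 [hAr]
    ring
  have k3 : c3 = g1 * g2 * r ^ 2 := by
    apply hinj
    have h5 : γ3 ^ 2 ≠ 0 := pow_ne_zero 2 h3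
    apply mul_right_cancel₀ h5
    rw [← b3, hρA, map_mul, map_mul, map_pow, ← hg1, ← hg2]
    nth_rw 1 [hAr]
    ring
  refine ⟨c1, c2, c3, γ1, γ2, γ3, g1, g2, g3, hc1, hc2, hc3, h1, h2, h3, hg10, hg20, hg30,
    f1, f2, f3, b1, b2, b3, n1, by rwa [mul_comm g12 g23], n3, ⟨r ^ 3 * (g1 * g2 * g3), ?_⟩,
    ⟨r, hr0, k1⟩, ⟨r, hr0, k2⟩, ⟨r, hr0, k3⟩⟩
  rw [k1, k2, k3]
  ring

/-- C2. An element `A` of norm `n²` is, up to a rational factor, a product of elements of the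
three quadratic subfields. `g1, g2, g3` are the norms of `γ1, γ2, γ3`. -/
lemma split (D : Dat K g12 g13 g23) (hA : Arith g12 g13 g23) {A : K} (hA0 : A ≠ 0) {n : ℚ}
    (hn : n ≠ 0) (hN : A * D.σ A * D.τ (A * D.σ A) = algebraMap ℚ K (n ^ 2)) :
    ∃ (c1 c2 c3 : ℚ) (γ1 γ2 γ3 : K) (g1 g2 g3 : ℚ), c1 ≠ 0 ∧ c2 ≠ 0 ∧ c3 ≠ 0 ∧
      γ1 ≠ 0 ∧ γ2 ≠ 0 ∧ γ3 ≠ 0 ∧ g1 ≠ 0 ∧ g2 ≠ 0 ∧ g3 ≠ 0 ∧
      D.σ γ1 = γ1 ∧ D.τ γ2 = γ2 ∧ D.ρ γ3 = γ3 ∧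
      A * D.σ A = algebraMap ℚ K c1 * γ1 ^ 2 ∧ A * D.τ A = algebraMap ℚ K c2 * γ2 ^ 2 ∧
      A * D.ρ A = algebraMap ℚ K c3 * γ3 ^ 2 ∧
      IsNm (g12 * g13) g1 ∧ IsNm (g12 * g23) g2 ∧ IsNm (g13 * g23) g3 ∧
      (∃ e : ℚ, c1 * c2 * c3 = e ^ 2) ∧
      (∃ q : ℚ, q ≠ 0 ∧ c1 = g2 * g3 * q ^ 2) ∧ (∃ q : ℚ, q ≠ 0 ∧ c2 = g1 * g3 * q ^ 2) ∧
      ∃ q : ℚ, q ≠ 0 ∧ c3 = g1 * g2 * q ^ 2 := by
  have hσ0 : D.σ A ≠ 0 := fun h => hA0 ((map_eq_zero_iff D.σ D.σ.injective).1 h)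
  have hτ0 : D.τ A ≠ 0 := fun h => hA0 ((map_eq_zero_iff D.τ D.τ.injective).1 h)
  have hρ0 : D.ρ A ≠ 0 := fun h => hA0 ((map_eq_zero_iff D.ρ D.ρ.injective).1 h)
  -- action on the conjugates
  have tσ : D.τ (D.σ A) = D.ρ A := D.v4.hts A
  have hN' : A * D.σ A * (D.τ A * D.ρ A) = algebraMap ℚ K (n ^ 2) := by
    rw [← hN, map_mul, tσ]
  have ss : D.σ (D.σ A) = A := D.v4.hss A
  have tt : D.τ (D.τ A) = A := D.v4.rot.hss A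
  have rr : D.ρ (D.ρ A) = A := D.v4.rot.rot.hss A
  have rt : D.ρ (D.τ A) = D.σ A := D.v4.rot.hts A
  have sr : D.σ (D.ρ A) = D.τ A := D.v4.hsr A
  obtain ⟨c1, γ1, hc1, h1, f1, b1⟩ := h90 D hA (β := A * D.σ A) (mul_ne_zero hA0 hσ0)
    (by rw [map_mul, ss, mul_comm]) hn hN
  obtain ⟨c2, γ2, hc2, h2, f2, b2⟩ := h90 D.rot hA.rot (β := A * D.τ A) (mul_ne_zero hA0 hτ0)
    (by
      change D.τ (A * D.τ A) = _
      rw [map_mul, tt, mul_comm]) hn (by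
      change A * D.τ A * D.ρ (A * D.τ A) = _
      rw [map_mul, rt, ← hN']
      ring)
  obtain ⟨c3, γ3, hc3, h3, f3, b3⟩ := h90 D.rot.rot hA.rot.rot (β := A * D.ρ A)
    (mul_ne_zero hA0 hρ0)
    (by
      change D.ρ (A * D.ρ A) = _
      rw [map_mul, rr, mul_comm]) hn (by
      change A * D.ρ A * D.σ (A * D.ρ A) = _
      rw [map_mul, sr, ← hN']
      ring)
  change D.τ γ2 = γ2 at f2
  change D.ρ γ3 = γ3 at f3
  -- the square root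
  have hg0 : γ1 * γ2 * γ3 ≠ 0 := mul_ne_zero (mul_ne_zero h1 h2) h3
  have hθ : (A * algebraMap ℚ K n / (γ1 * γ2 * γ3)) ^ 2 = algebraMap ℚ K (c1 * c2 * c3) := by
    have h5 : (A * algebraMap ℚ K n) ^ 2
        = algebraMap ℚ K (c1 * c2 * c3) * (γ1 * γ2 * γ3) ^ 2 := by
      have h6 : (A * D.σ A) * (A * D.τ A) * (A * D.ρ A)
          = (algebraMap ℚ K c1 * γ1 ^ 2) * (algebraMap ℚ K c2 * γ2 ^ 2)
            * (algebraMap ℚ K c3 * γ3 ^ 2) := by rw [b1, b2, b3]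
      rw [map_pow] at hN'
      rw [map_mul, map_mul]
      linear_combination h6 - A ^ 2 * hN'
    rw [div_pow, h5, mul_div_assoc, div_self (pow_ne_zero 2 hg0), mul_one]
  have hs10 : D.s1 ≠ 0 := by
    intro h
    have := D.q1
    rw [h] at this
    have h7 : ((g12 * g13 : ℤ) : K) ≠ 0 := by
      exact_mod_cast (mul_pos hA.pos12 hA.pos13).ne'
    exact h7 (by rw [← this]; ring)
  have hs20 : D.s2 ≠ 0 := by
    intro h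
    have := D.q2
    rw [h] at this
    have h7 : ((g12 * g23 : ℤ) : K) ≠ 0 := by
      exact_mod_cast (mul_pos hA.pos12 hA.pos23).ne'
    exact h7 (by rw [← this]; ring)
  have hs30 : D.s3 ≠ 0 := by
    intro h
    have := D.q3
    rw [h] at this
    have h7 : ((g13 * g23 : ℤ) : K) ≠ 0 := by
      exact_mod_cast (mul_pos hA.pos13 hA.pos23).ne'
    exact h7 (by rw [← this]; ring)
  have d1 : ((g12 * g13 : ℤ) : ℚ) ≠ 0 := by exact_mod_cast (mul_pos hA.pos12 hA.pos13).ne'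
  have d2 : ((g12 * g23 : ℤ) : ℚ) ≠ 0 := by exact_mod_cast (mul_pos hA.pos12 hA.pos23).ne'
  have d3 : ((g13 * g23 : ℤ) : ℚ) ≠ 0 := by exact_mod_cast (mul_pos hA.pos13 hA.pos23).ne'
  have q1 : algebraMap ℚ K ((g12 * g13 : ℤ) : ℚ) = D.s1 ^ 2 := by rw [D.q1, map_intCast]
  have q2 : algebraMap ℚ K ((g12 * g23 : ℤ) : ℚ) = D.s2 ^ 2 := by rw [D.q2, map_intCast]
  have q3 : algebraMap ℚ K ((g13 * g23 : ℤ) : ℚ) = D.s3 ^ 2 := by rw [D.q3, map_intCast]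
  obtain ⟨q, hq | hq | hq | hq⟩ := rat_sqrt D hA hθ
  · refine split_aux D hA hA0 hn hc1 hc2 hc3 h1 h2 h3 f1 f2 f3 b1 b2 b3 (e := q) ?_
    rw [div_eq_iff hg0] at hq
    exact hq
  · refine split_aux D hA hA0 hn (c1 := c1 * ((g12 * g13 : ℤ) : ℚ)) (γ1 := γ1 / D.s1)
      (mul_ne_zero hc1 d1) hc2 hc3 (div_ne_zero h1 hs10) h2 h3
      (by rw [map_div₀, f1, D.σ1]) f2 f3 ?_ b2 b3 (e := q * ((g12 * g13 : ℤ) : ℚ)) ?_
    · rw [b1, map_mul, q1]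
      field_simp
    · rw [div_eq_iff hg0] at hq
      rw [hq, map_mul, q1]
      field_simp
  · refine split_aux D hA hA0 hn (c2 := c2 * ((g12 * g23 : ℤ) : ℚ)) (γ2 := γ2 / D.s2)
      hc1 (mul_ne_zero hc2 d2) hc3 h1 (div_ne_zero h2 hs20) h3
      f1 (by rw [map_div₀, f2, D.τ2]) f3 b1 ?_ b3 (e := q * ((g12 * g23 : ℤ) : ℚ)) ?_
    · rw [b2, map_mul, q2]
      field_simp
    · rw [div_eq_iff hg0] at hq
      rw [hq, map_mul, q2]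
      field_simp
  · refine split_aux D hA hA0 hn (c3 := c3 * ((g13 * g23 : ℤ) : ℚ)) (γ3 := γ3 / D.s3)
      hc1 hc2 (mul_ne_zero hc3 d3) h1 h2 (div_ne_zero h3 hs30)
      f1 f2 (by rw [map_div₀, f3, D.ρ3]) b1 b2 ?_ (e := q * ((g13 * g23 : ℤ) : ℚ)) ?_
    · rw [b3, map_mul, q3]
      field_simp
    · rw [div_eq_iff hg0] at hq
      rw [hq, map_mul, q3]
      field_simp

end Pool.Agent.Helper75.BQ
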